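import Mathlib

/-!
The largest square in the odd-dimensional unit cube: `f(2, 2n+1) = √(n + 1/8)` for every `n ≥ 1`.

Upper bound.  Let `a, b ∈ [-1,1]^N`, `N = 2n+1`, be the two diagonal vectors of a square of side `s`
in the unit cube, so `a ⬝ b = 0` and `|a|² = |b|² = 2 s²`.  Put `x_i = 1 - |a_i|`,
`y_i = 1 - |b_i|`.  The sum of the `N` signs of `a_i b_i` is an odd integer, hence at least `1` in
absolute value, and it differs from `a ⬝ b = 0` by at most `∑ (1 - |a_i b_i|) ≤ ∑ (x_i + y_i)`.  So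
`∑ x_i ≥ 1/2` or `∑ y_i ≥ 1/2`, and then `∑ (1 - a_i²) = ∑ (2 x_i - x_i²) ≥ 3/4`
(or the same for `b`), i.e. `2 s² ≤ 2 n + 1/4`.
-/

namespace Pool.Agent.Results.MP_befaea_co.OddSquare

/-- The cube `[0,s]^n` in `ℝ^n`. -/
def cube (n : ℕ) (s : ℝ) : Set (EuclideanSpace ℝ (Fin n)) :=
  {x | ∀ i, x i ∈ Set.Icc (0 : ℝ) s}

/-- `Q ⊆ ℝ^n` is an `m`-dimensional cube of edge `s`: the image of `[0,s]^m` under a distance
preserving affine map `ℝ^m → ℝ^n`. -/
def IsCubeOfEdge (m n : ℕ) (s : ℝ) (Q : Set (EuclideanSpace ℝ (Fin n))) : Prop :=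
  ∃ φ : EuclideanSpace ℝ (Fin m) →ᵃⁱ[ℝ] EuclideanSpace ℝ (Fin n), Q = φ '' cube m s

/-! ### Upper bound -/

/-- a sign, never zero -/
noncomputable def sg (t : ℝ) : ℤ := if 0 ≤ t then 1 else -1

lemma sg_mul_abs (t : ℝ) : (sg t : ℝ) * |t| = t := by
  unfold sg
  split_ifs with h
  · simp [abs_of_nonneg h]
  · push Not at h
    simp [abs_of_neg h]

lemma sg_sq (t : ℝ) : (sg t : ℝ) = 1 ∨ (sg t : ℝ) = -1 := by
  unfold sg
  split_ifs <;> simp

lemma sg_odd (t : ℝ) : Odd (sg t) := by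
  unfold sg
  split_ifs
  · exact odd_one
  · exact ⟨-1, by norm_num⟩

lemma odd_sum {N : ℕ} (hN : Odd N) (g : Fin N → ℤ) (hg : ∀ i, Odd (g i)) :
    Odd (∑ i, g i) := by
  choose k hk using hg
  obtain ⟨M, hM⟩ := hN
  refine ⟨∑ i, k i + M, ?_⟩
  have : ∑ i, g i = ∑ i, (2 * k i + 1) := Finset.sum_congr rfl fun i _ => hk i
  rw [this, Finset.sum_add_distrib, ← Finset.mul_sum]
  simp [hM]
  ring

lemma one_le_abs_of_odd {z : ℤ} (hz : Odd z) : (1 : ℝ) ≤ |(z : ℝ)| := by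
  have h0 : z ≠ 0 := by
    rintro rfl
    exact absurd hz (by decide)
  have : (1 : ℤ) ≤ |z| := Int.one_le_abs h0
  exact_mod_cast this

/-- If `x_i ∈ [0,1]` and `∑ x_i ≥ 1/2` then `∑ (2 x_i - x_i²) ≥ 3/4`. -/
lemma loss {N : ℕ} (x : Fin N → ℝ) (h0 : ∀ i, 0 ≤ x i) (h1 : ∀ i, x i ≤ 1)
    (hs : 1 / 2 ≤ ∑ i, x i) : 3 / 4 ≤ ∑ i, (2 * x i - x i ^ 2) := by
  rw [Finset.sum_sub_distrib, ← Finset.mul_sum]
  by_cases hS : ∑ i, x i ≤ 1
  · have : ∑ i, x i ^ 2 ≤ (∑ i, x i) ^ 2 :=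
      Finset.sum_sq_le_sq_sum_of_nonneg fun i _ => h0 i
    nlinarith
  · push Not at hS
    have : ∑ i, x i ^ 2 ≤ ∑ i, x i :=
      Finset.sum_le_sum fun i _ => by nlinarith [h0 i, h1 i]
    linarith

/-- Key inequality: two orthogonal vectors in `[-1,1]^N`, `N` odd; one of them has squared length
at most `N - 3/4`. -/
lemma key {N : ℕ} (hN : Odd N) (a b : Fin N → ℝ) (ha : ∀ i, |a i| ≤ 1) (hb : ∀ i, |b i| ≤ 1)
    (hab : ∑ i, a i * b i = 0) :
    ∑ i, a i ^ 2 ≤ N - 3 / 4 ∨ ∑ i, b i ^ 2 ≤ N - 3 / 4 := by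
  have hodd : Odd (∑ i, sg (a i) * sg (b i)) :=
    odd_sum hN _ fun i => (sg_odd _).mul (sg_odd _)
  have h1 := one_le_abs_of_odd hodd
  push_cast at h1
  have h2 : ∑ i, (sg (a i) : ℝ) * sg (b i)
      = ∑ i, (sg (a i) : ℝ) * sg (b i) * (1 - |a i| * |b i|) := by
    have : ∑ i, (sg (a i) : ℝ) * sg (b i) * (|a i| * |b i|) = 0 := by
      rw [← hab]
      refine Finset.sum_congr rfl fun i _ => ?_
      conv_rhs => rw [← sg_mul_abs (a i), ← sg_mul_abs (b i)]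
      ring
    have h3 : ∑ i, (sg (a i) : ℝ) * sg (b i) * (1 - |a i| * |b i|)
        = ∑ i, (sg (a i) : ℝ) * sg (b i) - ∑ i, (sg (a i) : ℝ) * sg (b i) * (|a i| * |b i|) := by
      rw [← Finset.sum_sub_distrib]
      exact Finset.sum_congr rfl fun i _ => by ring
    rw [h3, this, sub_zero]
  have h3 : (1 : ℝ) ≤ ∑ i, ((1 - |a i|) + (1 - |b i|)) := by
    calc (1 : ℝ) ≤ |∑ i, (sg (a i) : ℝ) * sg (b i)| := h1
      _ = |∑ i, (sg (a i) : ℝ) * sg (b i) * (1 - |a i| * |b i|)| := by rw [h2]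
      _ ≤ ∑ i, |(sg (a i) : ℝ) * sg (b i) * (1 - |a i| * |b i|)| :=
          Finset.abs_sum_le_sum_abs _ _
      _ ≤ ∑ i, ((1 - |a i|) + (1 - |b i|)) := by
          refine Finset.sum_le_sum fun i _ => ?_
          have hA := ha i
          have hB := hb i
          have hA0 := abs_nonneg (a i)
          have hB0 := abs_nonneg (b i)
          have hs : |(sg (a i) : ℝ) * sg (b i)| = 1 := by
            rcases sg_sq (a i) with h | h <;> rcases sg_sq (b i) with h' | h' <;>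
              rw [h, h'] <;> norm_num
          rw [abs_mul, hs, one_mul, abs_of_nonneg (by nlinarith)]
          nlinarith
  rw [Finset.sum_add_distrib] at h3
  have hcount : ∀ c : Fin N → ℝ, 3 / 4 ≤ ∑ i, (2 * (1 - |c i|) - (1 - |c i|) ^ 2) →
      ∑ i, c i ^ 2 ≤ N - 3 / 4 := by
    intro c hc
    have : ∑ i, (2 * (1 - |c i|) - (1 - |c i|) ^ 2) = N - ∑ i, c i ^ 2 := by
      have : ∀ i, 2 * (1 - |c i|) - (1 - |c i|) ^ 2 = 1 - c i ^ 2 := by
        intro i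
        have := sq_abs (c i)
        nlinarith
      simp [this, Finset.sum_sub_distrib]
    linarith
  by_cases hc : 1 / 2 ≤ ∑ i, (1 - |a i|)
  · left
    exact hcount a (loss _ (fun i => by linarith [ha i]) (fun i => by linarith [abs_nonneg (a i)]) hc)
  · right
    push Not at hc
    exact hcount b (loss _ (fun i => by linarith [hb i]) (fun i => by linarith [abs_nonneg (b i)])
      (by linarith))

/-! ### The bound for squares -/

/-- the point `(x, y)` of the plane -/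
noncomputable def pt (x y : ℝ) : EuclideanSpace ℝ (Fin 2) := !₂[x, y]

lemma upper (n : ℕ) {s : ℝ} (hs : 0 < s)
    (φ : EuclideanSpace ℝ (Fin 2) →ᵃⁱ[ℝ] EuclideanSpace ℝ (Fin (2 * n + 1)))
    (hφ : φ '' cube 2 s ⊆ cube (2 * n + 1) 1) : s ^ 2 ≤ n + 1 / 8 := by
  have mem : ∀ x y : ℝ, (x = 0 ∨ x = s) → (y = 0 ∨ y = s) → ∀ i, φ (pt x y) i ∈ Set.Icc (0 : ℝ) 1 := by
    intro x y hx hy
    refine hφ ⟨pt x y, ?_, rfl⟩
    intro i
    fin_cases i
    · rcases hx with rfl | rfl <;> simp [pt, hs.le]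
    · rcases hy with rfl | rfl <;> simp [pt, hs.le]
  set L := φ.linearIsometry with hL
  have hsub : ∀ p q : EuclideanSpace ℝ (Fin 2), φ p - φ q = L (p - q) := by
    intro p q
    have := φ.map_vsub p q
    simpa using this.symm
  set a : EuclideanSpace ℝ (Fin (2 * n + 1)) := L (pt s s) with ha
  set b : EuclideanSpace ℝ (Fin (2 * n + 1)) := L (pt s (-s)) with hb
  have ha' : a = φ (pt s s) - φ (pt 0 0) := by
    rw [hsub, ha]; congr 1; ext i; fin_cases i <;> simp [pt]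
  have hb' : b = φ (pt s 0) - φ (pt 0 s) := by
    rw [hsub, hb]; congr 1; ext i; fin_cases i <;> simp [pt]
  have haa : ∀ i, |a i| ≤ 1 := by
    intro i
    have h1 := mem s s (Or.inr rfl) (Or.inr rfl) i
    have h2 := mem 0 0 (Or.inl rfl) (Or.inl rfl) i
    have : a i = φ (pt s s) i - φ (pt 0 0) i := by rw [ha']; rfl
    rw [this, abs_le]
    constructor <;> linarith [h1.1, h1.2, h2.1, h2.2]
  have hbb : ∀ i, |b i| ≤ 1 := by
    intro i
    have h1 := mem s 0 (Or.inr rfl) (Or.inl rfl) i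
    have h2 := mem 0 s (Or.inl rfl) (Or.inr rfl) i
    have : b i = φ (pt s 0) i - φ (pt 0 s) i := by rw [hb']; rfl
    rw [this, abs_le]
    constructor <;> linarith [h1.1, h1.2, h2.1, h2.2]
  have hab : ∑ i, a i * b i = 0 := by
    have h : inner ℝ a b = inner ℝ (pt s s) (pt s (-s)) := L.inner_map_map _ _
    have h2 : inner ℝ (pt s s) (pt s (-s)) = (0 : ℝ) := by
      simp [pt, PiLp.inner_apply, Fin.sum_univ_two]
    rw [h2] at h
    rw [← h]
    simp [PiLp.inner_apply, mul_comm]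
  have hna : ∑ i, a i ^ 2 = 2 * s ^ 2 := by
    have h : ‖a‖ = ‖pt s s‖ := L.norm_map _
    have h2 : ‖a‖ ^ 2 = ‖pt s s‖ ^ 2 := by rw [h]
    rw [EuclideanSpace.norm_sq_eq, EuclideanSpace.norm_sq_eq] at h2
    simp [pt, Fin.sum_univ_two] at h2
    linarith
  have hnb : ∑ i, b i ^ 2 = 2 * s ^ 2 := by
    have h : ‖b‖ = ‖pt s (-s)‖ := L.norm_map _
    have h2 : ‖b‖ ^ 2 = ‖pt s (-s)‖ ^ 2 := by rw [h]
    rw [EuclideanSpace.norm_sq_eq, EuclideanSpace.norm_sq_eq] at h2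
    simp [pt, Fin.sum_univ_two] at h2
    linarith
  have hodd : Odd (2 * n + 1) := ⟨n, rfl⟩
  rcases key hodd (fun i => a i) (fun i => b i) haa hbb hab with h | h
  · rw [hna] at h
    push_cast at h
    linarith
  · rw [hnb] at h
    push_cast at h
    linarith

/-! ### Lower bound: an optimal square -/

/-- one diagonal vector of the optimal square -/
noncomputable def aN : ℕ → ℝ
  | 0 => 1 / 2
  | _ + 1 => 1

/-- the other diagonal vector of the optimal square -/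
noncomputable def bN : ℕ → ℝ
  | 0 => 1
  | 1 => 1 / 2
  | k + 2 => -(-1) ^ k

lemma aN_abs (i : ℕ) : |aN i| ≤ 1 := by
  rcases i with _ | i
  · simp only [aN]; rw [abs_of_pos (by norm_num)]; norm_num
  · simp [aN]

lemma bN_abs (i : ℕ) : |bN i| ≤ 1 := by
  rcases i with _ | _ | i
  · simp [bN]
  · simp only [bN]; rw [abs_of_pos (by norm_num)]; norm_num
  · simp [bN, abs_neg, abs_pow]

lemma alt_sum (m : ℕ) : ∑ i ∈ Finset.range (2 * m + 1), (-1 : ℝ) ^ i = 1 := by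
  induction m with
  | zero => simp
  | succ m ih =>
    rw [show 2 * (m + 1) + 1 = 2 * m + 1 + 1 + 1 by ring, Finset.sum_range_succ,
      Finset.sum_range_succ, ih]
    rw [pow_succ]
    ring

lemma ab_sum (m : ℕ) : ∑ i ∈ Finset.range (2 * m + 3), aN i * bN i = 0 := by
  rw [show 2 * m + 3 = 2 * m + 1 + 1 + 1 by ring, Finset.sum_range_succ', Finset.sum_range_succ']
  have : ∑ k ∈ Finset.range (2 * m + 1), aN (k + 1 + 1) * bN (k + 1 + 1)
      = -∑ k ∈ Finset.range (2 * m + 1), (-1 : ℝ) ^ k := by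
    rw [← Finset.sum_neg_distrib]
    exact Finset.sum_congr rfl fun k _ => by simp [aN, bN]
  rw [this, alt_sum]
  simp only [aN, bN]
  norm_num

lemma aa_sum (m : ℕ) : ∑ i ∈ Finset.range (2 * m + 3), aN i ^ 2 = 2 * m + 2 + 1 / 4 := by
  rw [show 2 * m + 3 = 2 * m + 2 + 1 by ring, Finset.sum_range_succ']
  simp only [aN]
  simp
  norm_num

lemma bb_sum (m : ℕ) : ∑ i ∈ Finset.range (2 * m + 3), bN i ^ 2 = 2 * m + 2 + 1 / 4 := by
  rw [show 2 * m + 3 = 2 * m + 1 + 1 + 1 by ring, Finset.sum_range_succ', Finset.sum_range_succ']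
  have : ∑ k ∈ Finset.range (2 * m + 1), bN (k + 1 + 1) ^ 2 = 2 * m + 1 := by
    have h : ∀ k ∈ Finset.range (2 * m + 1), bN (k + 1 + 1) ^ 2 = 1 := by
      intro k _
      simp [bN, ← pow_mul]
    rw [Finset.sum_congr rfl h]
    simp
  rw [this]
  simp only [bN]
  ring

/-- The side direction `e = (a + b) / (2 s)` -/
noncomputable def eV (N : ℕ) (s : ℝ) : EuclideanSpace ℝ (Fin N) :=
  WithLp.toLp 2 fun i => (aN i + bN i) / (2 * s)

/-- The side direction `f = (a - b) / (2 s)` -/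
noncomputable def fV (N : ℕ) (s : ℝ) : EuclideanSpace ℝ (Fin N) :=
  WithLp.toLp 2 fun i => (aN i - bN i) / (2 * s)

/-- The linear map `(x, y) ↦ x e + y f`. -/
noncomputable def lin (N : ℕ) (s : ℝ) :
    EuclideanSpace ℝ (Fin 2) →ₗ[ℝ] EuclideanSpace ℝ (Fin N) where
  toFun p := p 0 • eV N s + p 1 • fV N s
  map_add' p q := by
    simp only [PiLp.add_apply, add_smul]
    abel
  map_smul' c p := by
    simp only [PiLp.smul_apply, smul_eq_mul, RingHom.id_apply, smul_add, smul_smul]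

lemma sums_fin (N : ℕ) (g : ℕ → ℝ) : ∑ i : Fin N, g i = ∑ i ∈ Finset.range N, g i :=
  Fin.sum_univ_eq_sum_range g N

lemma lin_norm (m : ℕ) {s : ℝ} (hs : 0 < s) (hs2 : s ^ 2 = m + 1 + 1 / 8)
    (p : EuclideanSpace ℝ (Fin 2)) : ‖lin (2 * m + 3) s p‖ = ‖p‖ := by
  have h : ‖lin (2 * m + 3) s p‖ ^ 2 = ‖p‖ ^ 2 := by
    rw [EuclideanSpace.norm_sq_eq, EuclideanSpace.norm_sq_eq, Fin.sum_univ_two]
    have hterm : ∀ i : Fin (2 * m + 3), ‖(lin (2 * m + 3) s p) i‖ ^ 2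
        = ((p 0 + p 1) ^ 2 / (4 * s ^ 2)) * aN i ^ 2 + ((p 0 - p 1) ^ 2 / (4 * s ^ 2)) * bN i ^ 2
          + (2 * (p 0 + p 1) * (p 0 - p 1) / (4 * s ^ 2)) * (aN i * bN i) := by
      intro i
      simp only [lin, eV, fV, LinearMap.coe_mk, AddHom.coe_mk, PiLp.add_apply, PiLp.smul_apply,
        smul_eq_mul, Real.norm_eq_abs, sq_abs]
      field_simp
      ring
    rw [Finset.sum_congr rfl fun i _ => hterm i, Finset.sum_add_distrib, Finset.sum_add_distrib,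
      ← Finset.mul_sum, ← Finset.mul_sum, ← Finset.mul_sum,
      sums_fin _ (fun i => aN i ^ 2), sums_fin _ (fun i => bN i ^ 2),
      sums_fin _ (fun i => aN i * bN i), aa_sum, bb_sum, ab_sum, hs2]
    simp only [Real.norm_eq_abs, sq_abs]
    have : (m : ℝ) + 1 + 1 / 8 ≠ 0 := by positivity
    field_simp
    ring
  have h1 := norm_nonneg (lin (2 * m + 3) s p)
  have h2 := norm_nonneg p
  nlinarith [sq_nonneg (‖lin (2 * m + 3) s p‖ - ‖p‖)]

/-- The vertex `(1 - a) / 2` of the optimal square. -/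
noncomputable def p0 (N : ℕ) : EuclideanSpace ℝ (Fin N) :=
  WithLp.toLp 2 fun i => (1 - aN i) / 2

/-- The isometric affine map onto the plane of the optimal square. -/
noncomputable def iso (m : ℕ) {s : ℝ} (hs : 0 < s) (hs2 : s ^ 2 = m + 1 + 1 / 8) :
    EuclideanSpace ℝ (Fin 2) →ᵃⁱ[ℝ] EuclideanSpace ℝ (Fin (2 * m + 3)) where
  toAffineMap := (lin (2 * m + 3) s).toAffineMap + AffineMap.const ℝ _ (p0 (2 * m + 3))
  norm_map x := by
    simpa using lin_norm m hs hs2 x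

lemma iso_apply (m : ℕ) {s : ℝ} (hs : 0 < s) (hs2 : s ^ 2 = m + 1 + 1 / 8)
    (x : EuclideanSpace ℝ (Fin 2)) (i : Fin (2 * m + 3)) :
    iso m hs hs2 x i
      = x 0 * ((aN i + bN i) / (2 * s)) + x 1 * ((aN i - bN i) / (2 * s)) + (1 - aN i) / 2 := by
  rfl

lemma lower (m : ℕ) {s : ℝ} (hs : 0 < s) (hs2 : s ^ 2 = m + 1 + 1 / 8) :
    iso m hs hs2 '' cube 2 s ⊆ cube (2 * m + 3) 1 := by
  rintro _ ⟨x, hx, rfl⟩ i
  rw [iso_apply]
  have h0 := hx 0
  have h1 := hx 1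
  set X := x 0 / s with hX
  set Y := x 1 / s with hY
  have hX0 : 0 ≤ X := div_nonneg h0.1 hs.le
  have hX1 : X ≤ 1 := by rw [hX, div_le_one hs]; exact h0.2
  have hY0 : 0 ≤ Y := div_nonneg h1.1 hs.le
  have hY1 : Y ≤ 1 := by rw [hY, div_le_one hs]; exact h1.2
  have hval : x 0 * ((aN i + bN i) / (2 * s)) + x 1 * ((aN i - bN i) / (2 * s)) + (1 - aN i) / 2
      = 1 / 2 + (aN i * (X + Y - 1) + bN i * (X - Y)) / 2 := by
    rw [hX, hY]
    field_simp
    ring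
  rw [hval]
  have ha := abs_le.1 (aN_abs i)
  have hb := abs_le.1 (bN_abs i)
  have hA : |aN i * (X + Y - 1)| ≤ |X + Y - 1| := by
    rw [abs_mul]
    exact mul_le_of_le_one_left (abs_nonneg _) (aN_abs i)
  have hB : |bN i * (X - Y)| ≤ |X - Y| := by
    rw [abs_mul]
    exact mul_le_of_le_one_left (abs_nonneg _) (bN_abs i)
  have hXY : |X + Y - 1| + |X - Y| ≤ 1 := by
    rcases abs_cases (X + Y - 1) with ⟨h, _⟩ | ⟨h, _⟩ <;>
      rcases abs_cases (X - Y) with ⟨h', _⟩ | ⟨h', _⟩ <;> rw [h, h'] <;> linarith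
  have hA' := abs_le.1 hA
  have hB' := abs_le.1 hB
  constructor <;> linarith [hA'.1, hA'.2, hB'.1, hB'.2]

/-- **The largest square in the unit cube of dimension `2n+1`, `n ≥ 1`, has side
`√((8n+1)/8)`.**  It exists, and no square contained in `[0,1]^(2n+1)` is larger. -/
theorem result (n : ℕ) (hn : 1 ≤ n) :
    IsGreatest {s : ℝ | 0 < s ∧ ∃ Q : Set (EuclideanSpace ℝ (Fin (2 * n + 1))),
      IsCubeOfEdge 2 (2 * n + 1) s Q ∧ Q ⊆ cube (2 * n + 1) 1} (√((8 * n + 1) / 8)) := by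
  constructor
  · obtain ⟨m, rfl⟩ : ∃ m, n = m + 1 := ⟨n - 1, by omega⟩
    have hpos : (0 : ℝ) < (8 * ((m + 1 : ℕ) : ℝ) + 1) / 8 := by positivity
    have hs : 0 < √((8 * ((m + 1 : ℕ) : ℝ) + 1) / 8) := Real.sqrt_pos.2 hpos
    have hs2 : √((8 * ((m + 1 : ℕ) : ℝ) + 1) / 8) ^ 2 = m + 1 + 1 / 8 := by
      rw [Real.sq_sqrt hpos.le]
      push_cast
      ring
    exact ⟨hs, _, ⟨iso m hs hs2, rfl⟩, lower m hs hs2⟩
  · rintro s ⟨hs, Q, ⟨φ, rfl⟩, hQ⟩
    refine Real.le_sqrt_of_sq_le ?_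
    have := upper n hs φ hQ
    linarith

end Pool.Agent.Results.MP_befaea_co.OddSquare
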